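import Pool.Agent.R10.IndepInit

/-!
# Minimum graph order realizing all weak orders by independent set counts

`N m ≤ m ^ m + m ^ (m - 1) + m - 1` for all `m ≥ 10 ^ 7`.
-/

namespace Pool.Agent.Results.MP_d775c4_co.AsymptoticOrder

open Pool.Agent.R10.IndepSeq

/-- A weak order on `[m]`, as a total preorder on `Fin m`; the element `j : Fin m` stands for
`j + 1 ∈ [m]`, and `R j k` says that the block of `j + 1` precedes or equals that of `k + 1`. -/
def IsWeakOrder (m : ℕ) (R : Fin m → Fin m → Prop) : Prop :=
  (∀ x y, R x y ∨ R y x) ∧ ∀ x y z, R x y → R y z → R x z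

/-- The weak order `R` on `[m]` is realized by `G`: the largest `k` with `i_k(G) > 0` is `m`, and
the block of `j` precedes or equals the block of `k` exactly when `i_j(G) ≤ i_k(G)`. -/
def Realizes {V : Type} [Fintype V] (G : SimpleGraph V) (m : ℕ) (R : Fin m → Fin m → Prop) :
    Prop :=
  IsGreatest {k | 0 < indepCount G k} m ∧
    ∀ j k : Fin m, R j k ↔ indepCount G (j + 1) ≤ indepCount G (k + 1)

/-- Every weak order on `[m]` is realized by some graph of order at most `n`. -/
def AllRealized (m n : ℕ) : Prop :=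
  ∀ R : Fin m → Fin m → Prop, IsWeakOrder m R →
    ∃ (V : Type) (_ : Fintype V) (G : SimpleGraph V), Fintype.card V ≤ n ∧ Realizes G m R

/-- `N(m)`: the least `n` such that every weak order on `[m]` is realized by some graph of order
at most `n`. -/
noncomputable def N (m : ℕ) : ℕ := sInf {n | AllRealized m n}

/-- A weak order is given by a rank function with values below `m`. -/
theorem exists_rank (m : ℕ) (R : Fin m → Fin m → Prop) (h : IsWeakOrder m R) :
    ∃ δ : Fin m → ℕ, (∀ x, δ x < m) ∧ ∀ x y, R x y ↔ δ x ≤ δ y := by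
  classical
  obtain ⟨h1, h2⟩ := h
  have hrefl : ∀ x, R x x := fun x => (h1 x x).elim id id
  refine ⟨fun x => ((Finset.univ : Finset (Fin m)).filter (fun z => ¬ R x z)).card, ?_, ?_⟩
  · intro x
    have : ((Finset.univ : Finset (Fin m)).filter (fun z => ¬ R x z)) ⊂ Finset.univ := by
      rw [Finset.ssubset_univ_iff]
      intro he
      have : x ∈ ((Finset.univ : Finset (Fin m)).filter (fun z => ¬ R x z)) := by
        rw [he]; exact Finset.mem_univ x
      rw [Finset.mem_filter] at this
      exact this.2 (hrefl x)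
    have := Finset.card_lt_card this
    simpa using this
  · intro x y
    constructor
    · intro hxy
      apply Finset.card_le_card
      intro z hz
      rw [Finset.mem_filter] at hz ⊢
      exact ⟨hz.1, fun hyz => hz.2 (h2 x y z hxy hyz)⟩
    · intro hle
      by_contra hxy
      have hyx : R y x := (h1 x y).resolve_left hxy
      have hlt : ((Finset.univ : Finset (Fin m)).filter (fun z => ¬ R y z)) ⊂
          ((Finset.univ : Finset (Fin m)).filter (fun z => ¬ R x z)) := by
        rw [Finset.ssubset_iff_of_subset]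
        · refine ⟨y, ?_, ?_⟩
          · rw [Finset.mem_filter]
            exact ⟨Finset.mem_univ _, hxy⟩
          · rw [Finset.mem_filter]
            intro hh
            exact hh.2 (hrefl y)
        · intro z hz
          rw [Finset.mem_filter] at hz ⊢
          exact ⟨hz.1, fun hxz => hz.2 (h2 y x z hyx hxz)⟩
      exact absurd hle (not_le.mpr (Finset.card_lt_card hlt))

theorem allRealized (m : ℕ) (hm : 10 ^ 7 ≤ m) : AllRealized m (m ^ m + m ^ (m - 1) + m - 1) := by
  intro R hR
  have h7 : 10 ^ 7 = 10000000 := by norm_num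
  obtain ⟨δ, hδ1, hδ2⟩ := exists_rank m R hR
  set Y := m ^ m + m ^ (m - 1) with hY
  set v : ℕ → ℕ := fun i => if h : 1 ≤ i ∧ i ≤ m then Y + δ ⟨i - 1, by omega⟩ else Y with hv
  have hv1 : ∀ i, 1 ≤ i → i ≤ m → Y ≤ v i := by
    intro i h1 h2
    simp only [hv]
    rw [dif_pos ⟨h1, h2⟩]
    omega
  have hv2 : ∀ i, 1 ≤ i → i ≤ m → v i < Y + m := by
    intro i h1 h2
    simp only [hv]
    rw [dif_pos ⟨h1, h2⟩]
    have := hδ1 ⟨i - 1, by omega⟩
    omega
  obtain ⟨V, _, G, hG1, hG2⟩ := realize m hm v hv1 hv2
  refine ⟨V, inferInstance, G, ?_, ?_, ?_⟩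
  · rw [← indepCount_one G, hG1 1 le_rfl (by omega)]
    have := hv2 1 le_rfl (by omega)
    omega
  · constructor
    · change 0 < indepCount G m
      rw [hG1 m (by omega) le_rfl]
      have h1 := hv1 m (by omega) le_rfl
      have h2 : 0 < m ^ m := pow_pos (by omega) m
      omega
    · intro k hk
      by_contra hlt
      push Not at hlt
      change 0 < indepCount G k at hk
      rw [hG2 k hlt] at hk
      exact lt_irrefl 0 hk
  · intro j k
    rw [hG1 (j + 1) (by omega) (by omega), hG1 (k + 1) (by omega) (by omega), hδ2 j k]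
    simp only [hv]
    rw [dif_pos ⟨by omega, by omega⟩, dif_pos ⟨by omega, by omega⟩]
    simp

/-- For all `m ≥ 10 ^ 7`, every weak order on `[m]` is realized by a graph with at most
`m ^ m + m ^ (m - 1) + m - 1` vertices; that is, `N m` is at most this number. -/
theorem result (m : ℕ) (hm : 10 ^ 7 ≤ m) :
    AllRealized m (m ^ m + m ^ (m - 1) + m - 1) ∧ N m ≤ m ^ m + m ^ (m - 1) + m - 1 :=
  ⟨allRealized m hm, Nat.sInf_le (allRealized m hm)⟩

end Pool.Agent.Results.MP_d775c4_co.AsymptoticOrder
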